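import Mathlib
import Pool.Agent.Work.MP_201fbb_nt.ZeroFree

open Polynomial

namespace Pool.Agent.Results.MP_201fbb_nt.PrimeIrreducible

/-- The Stern polynomials: `B_0 = 0`, `B_1 = 1`, `B_{2n} = X * B_n` and
`B_{2n+1} = B_n + B_{n+1}` for `n ≥ 1`. -/
noncomputable def stern : ℕ → ℤ[X]
  | 0 => 0
  | 1 => 1
  | n + 2 =>
    if h : n % 2 = 0 then X * stern (n / 2 + 1)
    else stern (n / 2 + 1) + stern (n / 2 + 2)
  decreasing_by all_goals omega

theorem stern_zero : stern 0 = 0 := by rw [stern]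

theorem stern_one : stern 1 = 1 := by rw [stern]

theorem stern_two_mul (n : ℕ) (hn : 1 ≤ n) : stern (2 * n) = X * stern n := by
  obtain ⟨m, rfl⟩ : ∃ m, n = m + 1 := ⟨n - 1, by omega⟩
  have e : 2 * (m + 1) = 2 * m + 2 := by ring
  rw [e, stern, dif_pos (by omega)]
  congr 2
  omega

theorem stern_two_mul_add_one (n : ℕ) (hn : 1 ≤ n) :
    stern (2 * n + 1) = stern n + stern (n + 1) := by
  obtain ⟨m, rfl⟩ : ∃ m, n = m + 1 := ⟨n - 1, by omega⟩
  have e : 2 * (m + 1) + 1 = (2 * m + 1) + 2 := by ring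
  rw [e, stern, dif_neg (by omega)]
  congr 2 <;> omega

theorem eval_two (n : ℕ) : (stern n).eval 2 = n := by
  induction n using Nat.strong_induction_on with
  | _ n ih =>
    rcases Nat.even_or_odd' n with ⟨m, rfl | rfl⟩
    · rcases Nat.eq_zero_or_pos m with rfl | hm
      · simp [stern_zero]
      · rw [stern_two_mul m hm, eval_mul, eval_X, ih m (by omega)]
        push_cast; ring
    · rcases Nat.eq_zero_or_pos m with rfl | hm
      · simp [stern_one]
      · rw [stern_two_mul_add_one m hm, eval_add, ih m (by omega), ih (m + 1) (by omega)]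
        push_cast; ring

theorem eval_one_pos (n : ℕ) (hn : 1 ≤ n) : 0 < (stern n).eval 1 := by
  induction n using Nat.strong_induction_on with
  | _ n ih =>
    rcases Nat.even_or_odd' n with ⟨m, rfl | rfl⟩
    · have hm : 1 ≤ m := by omega
      rw [stern_two_mul m hm, eval_mul, eval_X, one_mul]
      exact ih m (by omega) hm
    · rcases Nat.eq_zero_or_pos m with rfl | hm
      · simp [stern_one]
      · rw [stern_two_mul_add_one m hm, eval_add]
        exact add_pos (ih m (by omega) hm) (ih (m + 1) (by omega) (by omega))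

theorem coeff_zero_odd (n : ℕ) : (stern (2 * n + 1)).coeff 0 = 1 := by
  induction n using Nat.strong_induction_on with
  | _ n ih =>
    rcases Nat.eq_zero_or_pos n with rfl | hn
    · simp [stern_one]
    · rw [stern_two_mul_add_one n hn, coeff_add]
      rcases Nat.even_or_odd' n with ⟨m, rfl | rfl⟩
      · rw [stern_two_mul m (by omega), ih m (by omega)]
        simp
      · have e : 2 * m + 1 + 1 = 2 * (m + 1) := by ring
        rw [e, stern_two_mul (m + 1) (by omega), ih m (by omega)]
        simp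

/-- No zero in the region `|t-2|^2 ≤ |t-1|`. -/
theorem no_zero {t : ℂ} (ht : ‖t - 2‖ ^ 2 ≤ ‖t - 1‖) (n : ℕ) (hn : 1 ≤ n) :
    aeval t (stern n) ≠ 0 := by
  refine Pool.Agent.Work.MP_201fbb_nt.seq_ne_zero_of_region ht (fun n => aeval t (stern n))
    ?_ ?_ ?_ n hn
  · simp [stern_one]
  · intro n hn
    simp [stern_two_mul n hn]
  · intro n hn
    simp [stern_two_mul_add_one n hn]

theorem multiset_prod_lt {α : Type*} (u v : α → ℝ) (s : Multiset α)
    (h : ∀ z ∈ s, 0 ≤ u z ∧ u z < v z) :
    (s.map u).prod ≤ (s.map v).prod ∧ 0 ≤ (s.map u).prod ∧ 0 < (s.map v).prod ∧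
      (s ≠ 0 → (s.map u).prod < (s.map v).prod) := by
  induction s using Multiset.induction with
  | empty => simp
  | cons a s ih =>
    obtain ⟨h1, h2, h3, h4⟩ := ih (fun z hz => h z (Multiset.mem_cons_of_mem hz))
    obtain ⟨ha0, ha1⟩ := h a (Multiset.mem_cons_self a s)
    simp only [Multiset.map_cons, Multiset.prod_cons]
    have hlt : u a * (s.map u).prod < v a * (s.map v).prod :=
      calc u a * (s.map u).prod ≤ u a * (s.map v).prod := mul_le_mul_of_nonneg_left h1 ha0
        _ < v a * (s.map v).prod := mul_lt_mul_of_pos_right ha1 h3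
    exact ⟨hlt.le, mul_nonneg ha0 h2, mul_pos (lt_of_le_of_lt ha0 ha1) h3, fun _ => hlt⟩

/-- A nonconstant integer polynomial dividing a Stern polynomial has `|f(2)| ≠ 1`. -/
theorem factor_eval_two (f : ℤ[X]) (n : ℕ) (hn : 1 ≤ n) (hf : f ∣ stern n)
    (hdeg : 0 < f.natDegree) : ¬ (f.eval 2).natAbs = 1 := by
  intro h1
  have hf0 : f ≠ 0 := by rintro rfl; simp at hdeg
  have hinj : Function.Injective (Int.castRingHom ℂ) := (Int.castRingHom ℂ).injective_int
  set g : ℂ[X] := f.map (Int.castRingHom ℂ) with hg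
  have hg0 : g ≠ 0 := (Polynomial.map_ne_zero_iff hinj).2 hf0
  have hsp : g.Splits := IsAlgClosed.splits g
  have hlc : g.leadingCoeff = (f.leadingCoeff : ℂ) := by
    rw [hg, leadingCoeff_map_of_injective hinj]; rfl
  have ev : ∀ k : ℤ, g.eval (k : ℂ) = ((f.eval k : ℤ) : ℂ) := by
    intro k
    simp [hg]
  have hroots : ∀ z ∈ g.roots, 0 ≤ ‖1 - z‖ ∧ ‖1 - z‖ < ‖2 - z‖ ^ 2 := by
    intro z hz
    refine ⟨norm_nonneg _, ?_⟩
    by_contra hcon
    push Not at hcon
    have hz' : g.IsRoot z := (mem_roots hg0).1 hz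
    have hz2 : aeval z f = 0 := by
      have : g.eval z = 0 := hz'
      rw [hg, eval_map] at this
      simpa [aeval_def] using this
    have hz3 : aeval z (stern n) = 0 := by
      obtain ⟨q, hq⟩ := hf
      rw [hq, map_mul, hz2, zero_mul]
    refine no_zero (t := z) ?_ n hn hz3
    rw [norm_sub_rev z 2, norm_sub_rev z 1]
    exact hcon
  have hrne : g.roots ≠ 0 := by
    intro h0
    have hc : g.roots.card = g.natDegree := hsp.natDegree_eq_card_roots.symm
    rw [h0, hg, natDegree_map_eq_of_injective hinj] at hc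
    simp at hc
    omega
  obtain ⟨-, -, -, hlt⟩ := multiset_prod_lt (fun z => ‖1 - z‖) (fun z => ‖2 - z‖ ^ 2) g.roots hroots
  have hlt := hlt hrne
  have np : ∀ s : Multiset ℂ, ‖s.prod‖ = (s.map (fun z => ‖z‖)).prod := by
    intro s
    induction s using Multiset.induction with
    | empty => simp
    | cons a s ih => rw [Multiset.prod_cons, norm_mul, ih, Multiset.map_cons, Multiset.prod_cons]
  have e1 : ‖g.eval 1‖ = ‖g.leadingCoeff‖ * (g.roots.map (fun z => ‖1 - z‖)).prod := by
    rw [hsp.eval_eq_prod_roots, norm_mul, np, Multiset.map_map]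
    rfl
  have e2 : ‖g.eval 2‖ = ‖g.leadingCoeff‖ * (g.roots.map (fun z => ‖2 - z‖)).prod := by
    rw [hsp.eval_eq_prod_roots, norm_mul, np, Multiset.map_map]
    rfl
  have e3 : (g.roots.map (fun z => ‖2 - z‖ ^ 2)).prod
      = ((g.roots.map (fun z => ‖2 - z‖)).prod) ^ 2 := by
    rw [← Multiset.prod_map_pow]
  have v1 : 1 ≤ ‖g.eval 1‖ := by
    have h := ev 1
    rw [Int.cast_one] at h
    rw [h, Complex.norm_intCast]
    have hne : f.eval 1 ≠ 0 := by
      intro h0
      obtain ⟨q, hq⟩ := hf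
      have := eval_one_pos n hn
      rw [hq, eval_mul, h0, zero_mul] at this
      exact lt_irrefl _ this
    exact_mod_cast Int.one_le_abs hne
  have v2 : ‖g.eval 2‖ = 1 := by
    have h := ev 2
    have h2 : ((2 : ℤ) : ℂ) = 2 := by norm_num
    rw [h2] at h
    rw [h, Complex.norm_intCast]
    have : |f.eval 2| = 1 := by
      rw [Int.abs_eq_natAbs, h1]; rfl
    exact_mod_cast this
  have hl : 1 ≤ ‖g.leadingCoeff‖ := by
    rw [hlc, Complex.norm_intCast]
    exact_mod_cast Int.one_le_abs (leadingCoeff_ne_zero.2 hf0)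
  rw [e3] at hlt
  rw [e1] at v1
  rw [e2] at v2
  set P1 := (g.roots.map (fun z => ‖1 - z‖)).prod with hP1
  set P2 := (g.roots.map (fun z => ‖2 - z‖)).prod with hP2
  set L := ‖g.leadingCoeff‖ with hL
  -- L * P2 = 1, 1 ≤ L * P1, P1 < P2 ^ 2, 1 ≤ L
  have hLpos : 0 < L := by linarith
  have h5 : 1 < L * P2 ^ 2 := lt_of_le_of_lt v1 (mul_lt_mul_of_pos_left hlt hLpos)
  have h6 : L * P2 ^ 2 = P2 := by rw [sq, ← mul_assoc, v2, one_mul]
  rw [h6] at h5
  nlinarith

/-- For every prime `p` the Stern polynomial `B_p` is irreducible over the rationals. -/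
theorem result (p : ℕ) (hp : p.Prime) :
    Irreducible ((stern p).map (Int.castRingHom ℚ)) := by
  have hp1 : 1 ≤ p := hp.one_lt.le
  have hprim : (stern p).IsPrimitive := by
    rcases hp.eq_two_or_odd' with rfl | ⟨m, rfl⟩
    · have : stern 2 = X := by
        have := stern_two_mul 1 le_rfl
        simpa [stern_one] using this
      rw [this]
      exact monic_X.isPrimitive
    · intro r hr
      have := (C_dvd_iff_dvd_coeff r _).1 hr 0
      rw [coeff_zero_odd] at this
      exact isUnit_of_dvd_one this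
  rw [← IsPrimitive.Int.irreducible_iff_irreducible_map_cast hprim]
  have key : ∀ f : ℤ[X], f ∣ stern p → (f.eval 2).natAbs = 1 → IsUnit f := by
    intro f hf h1
    rcases Nat.eq_zero_or_pos f.natDegree with h0 | h0
    · rw [eq_C_of_natDegree_eq_zero h0] at h1 ⊢
      rw [eval_C] at h1
      exact isUnit_C.2 (Int.isUnit_iff_natAbs_eq.2 h1)
    · exact absurd h1 (factor_eval_two f p hp1 hf h0)
  refine ⟨?_, ?_⟩
  · intro hu
    obtain ⟨c, hc, hc2⟩ := isUnit_iff.1 hu
    have := eval_two p
    rw [← hc2, eval_C] at this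
    rw [this] at hc
    have h2 := Int.isUnit_iff_natAbs_eq.1 hc
    simp at h2
    exact hp.one_lt.ne' h2
  · intro f g hfg
    have h2 := eval_two p
    rw [hfg, eval_mul] at h2
    have h3 : (f.eval 2).natAbs * (g.eval 2).natAbs = p := by
      rw [← Int.natAbs_mul, h2]; simp
    have h4 : (f.eval 2).natAbs = 1 ∨ (g.eval 2).natAbs = 1 := by
      have hd : (f.eval 2).natAbs ∣ p := ⟨_, h3.symm⟩
      rcases (Nat.dvd_prime hp).1 hd with h | h
      · exact Or.inl h
      · right
        rw [h] at h3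
        have := hp.pos
        nlinarith
    rcases h4 with h | h
    · exact Or.inl (key f ⟨g, hfg⟩ h)
    · exact Or.inr (key g ⟨f, by rw [hfg, mul_comm]⟩ h)

end Pool.Agent.Results.MP_201fbb_nt.PrimeIrreducible
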